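import Pool.Agent.Lib.MP_671173_al.Exact

namespace Pool.Agent.Results.MP_671173_al.ExactEven

open Pool.Agent.Lib.MP_671173_al

/-- `ω(UU₄(F_q))` is not a polynomial in `q` for large `q`; more precisely it equals
`q³ + q² - q + 1` for every even `q` and is at most `q³ + q² - 2q + 2` for every odd `q`. -/
theorem result :
    (∀ (P : Polynomial ℚ) (q₀ : ℕ), ∃ (K : Type) (_ : Field K) (_ : Fintype K),
      q₀ ≤ Fintype.card K ∧ (omegaUU4 K : ℚ) ≠ P.eval (Fintype.card K : ℚ)) ∧
    ∀ (K : Type) [Field K] [Fintype K],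
      (Even (Fintype.card K) →
        omegaUU4 K + Fintype.card K = Fintype.card K ^ 3 + Fintype.card K ^ 2 + 1) ∧
      (Odd (Fintype.card K) →
        omegaUU4 K + 2 * Fintype.card K ≤ Fintype.card K ^ 3 + Fintype.card K ^ 2 + 2) :=
  ⟨main, fun _ _ _ => ⟨omega_even, omega_odd⟩⟩

end Pool.Agent.Results.MP_671173_al.ExactEven
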